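import Pool.Agent.Lib.TWEX.KArc
import Pool.Agent.Lib.TWM.Bridge

/-!
# TANK W, line (II), assembly: definitions

* `Irr`, `FGc`, `PDiv`: `σ` incommensurable with the values; closures of finitely generated fields;
  values divisible by `p`;
* `STow`: two floors over a strict first floor; `STc`: in a completion; `MTow`: strict second floor;
* `Unhit`: the top floor of some presentation is not hit.
-/

set_option autoImplicit false

open Polynomial

namespace Pool.Agent.TWS7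

open Pool.Agent.H15JM (RVal)
open Pool.Agent.D2P (hen clI)
open Pool.Agent.TWM
open Pool.Agent.TWII (PG LP)
open Pool.Agent.TWEX (SFl SDat)
open Pool.Agent.TW (Full)

universe u'

variable {k Ω : Type u'} [Field k] [Field Ω] [Algebra k Ω]

/-- `σ` is not commensurable with the values of `L`. -/
def Irr (v : RVal Ω) (L : IntermediateField k Ω) (σ : ℝ) : Prop :=
  ∀ n : ℕ, n ≠ 0 → ∀ f ∈ L, f ≠ 0 → v f ≠ n * σ

/-- The closure of a finitely generated field of transcendence degree `d`. -/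
def FGc (v : RVal Ω) (d : ℕ) (L : IntermediateField k Ω) : Prop :=
  ∃ F : IntermediateField k Ω, F.FG ∧ Full v F ∧ Algebra.trdeg k F = d ∧ L = clI v F

/-- Value group divisible by `p`. -/
def PDiv (p : ℕ) (v : RVal Ω) (L : IntermediateField k Ω) : Prop :=
  ∀ f ∈ L, f ≠ 0 → ∃ g ∈ L, g ≠ 0 ∧ v f = p * v g

/-- Two floors `u`, `w` over `C = N(y)`, `y` a strict floor over `N`, `σ` irrational. -/
structure STow (p : ℕ) (v : RVal Ω) (N : IntermediateField k Ω) (y : Ω) (σ : ℝ) (D : ℕ → Ω → Ω)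
    (u : Ω) (ρ : ℝ) (w : Ω) (s : ℝ) (L : IntermediateField k Ω) : Prop where
  cN : Cld v N
  val : ∃ x ∈ N, x ≠ 0 ∧ v x ≠ 0
  sfl : SFl p v N y σ D
  fg : FGc v 2 (cadj v N y)
  irr : Irr v L σ
  tu : TL v (cadj v N y) u ρ
  tw : TL v (cadj v (cadj v N y) u) w s
  eq : L = cadj v (cadj v (cadj v N y) u) w

/-- `a` is not hit by the top floor of a presentation of `L`. -/
def Unhit (p : ℕ) (v : RVal Ω) (d : ℕ) (L : IntermediateField k Ω) (ν : ℝ) (a : Ω) : Prop :=
  ∃ (E : IntermediateField k Ω) (z : Ω) (s : ℝ) (f : Polynomial Ω) (g : Ω), FGc v d E ∧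
    TL v E z s ∧ L = cadj v E z ∧ f ∈ PI E ∧ g ∈ L ∧ Gt v ν (a - g ^ p - f.eval z) ∧
    ∀ l : ℕ, p ∣ l → l ≠ 0 → PG p v L (ν - l * s) ((taylor z f).coeff l)

/-- Two floors `u`, `w` over a closed `C` of transcendence degree `2`, `u` strict over `C`. -/
structure MTow (p : ℕ) (v : RVal Ω) (C : IntermediateField k Ω) (u : Ω) (ρ : ℝ) (D : ℕ → Ω → Ω)
    (w : Ω) (s : ℝ) (L : IntermediateField k Ω) : Prop where
  cC : Cld v C
  fg : FGc v 2 C
  sfl : SFl p v C u ρ D
  fgu : FGc v 3 (cadj v C u)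
  tw : TL v (cadj v C u) w s
  eq : L = cadj v (cadj v C u) w

/-- The completion contains a tower whose first floor is strict, over `cl k(x)`. -/
def STc (p : ℕ) (v : RVal Ω) (K₀ : IntermediateField k Ω) : Prop :=
  ∃ (Ω' : Type u') (_ : Field Ω') (_ : Algebra k Ω') (ι : Ω →ₐ[k] Ω') (w : RVal Ω')
    (_ : IsAlgClosed Ω'), CompleteV w ∧ Dense v w ι ∧
      ∃ x y σ D u ρ z s, x ≠ 0 ∧ w x ≠ 0 ∧
        STow p w (cadj w (⊥ : IntermediateField k Ω') x) y σ D u ρ z s (clI w (K₀.map ι))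

theorem STow.sdat {v : RVal Ω} {N L : IntermediateField k Ω} {y u w : Ω} {σ ρ s : ℝ}
    {D : ℕ → Ω → Ω} {p : ℕ} (h : STow p v N y σ D u ρ w s L) : SDat p v N y σ D L u w ρ s :=
  ⟨h.sfl, h.tu, h.tw, h.eq, h.irr⟩

end Pool.Agent.TWS7
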