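import Pool.Agent.Lib.TWII.Soc
import Pool.Agent.Lib.TWJ.NoHit0
import Pool.Agent.Lib.TWJ.ALL
import Pool.Agent.Lib.TWS7.Defs

/-!
# TANK W, line (II), assembly: the exit if the top floor is not hit

* `hrone_of_unhit`: `HRone`;
* `exists_level`: the level of `g ^ p`.
-/

set_option autoImplicit false

open Polynomial Finset

namespace Pool.Agent.TWS7

open Pool.Agent.H15JM (RVal)
open Pool.Agent.LU1 (adj)
open Pool.Agent.D2 (Ctx0)
open Pool.Agent.D2P (hen clI mem_clI mem_adj_self)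
open Pool.Agent.TWM
open Pool.Agent.TWII (PG LP)
open Pool.Agent.TW (Ctx Full BD HRone LU pcomb mon)

universe u

variable {k Ω : Type u} [Field k] [Field Ω] [Algebra k Ω] {v : RVal Ω}

theorem FGc.cld {d : ℕ} {L : IntermediateField k Ω} (h : FGc v d L) : Cld v L := by
  obtain ⟨F, -, -, -, rfl⟩ := h
  exact cld_clI v F

/-- A floor over the closure of a finitely generated field. -/
theorem FGc.cadj {d : ℕ} {C : IntermediateField k Ω} (h : FGc v d C) {z : Ω} {s : ℝ}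
    (hz : TL v C z s) : FGc v (d + 1) (cadj v C z) := by
  obtain ⟨F, hF, hFf, hFt, rfl⟩ := h
  refine ⟨adj F z, D2P.fg_adj hF z, hFf.mono (mem_adj_self F z).2, ?_, clI_adj_clI⟩
  rw [TW.HRLU.trdeg_adj (TWJ.TL.transc (TWJ.TL.of_clI hz)), hFt]
  push_cast
  rfl

/-- **`HRone`, if `g ^ p` is not hit.** -/
theorem hrone_of_unhit [IsAlgClosed k] [IsAlgClosed Ω] (p : ℕ) [Fact p.Prime] [CharP k p]
    [CharP Ω p] (h : Ctx k v 1) (hcv : CompleteV v) {K₀ : IntermediateField k Ω} (hK : K₀.FG)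
    (hfull : Full v K₀) (htr : Algebra.trdeg k K₀ = (4 : ℕ)) (hBDK : BD p v K₀) {g : Ω}
    (hg : g ^ p ∈ K₀) (hBD : BD p v (adj K₀ g)) {ν : ℝ} (hu : Unhit p v 3 (clI v K₀) ν (g ^ p))
    (hlev : ∀ x ∈ clI v K₀, ¬ Gt v ν (g ^ p - x ^ p)) : HRone v (adj K₀ g) := by
  obtain ⟨E, z, s, f, x, ⟨F, hF, hFf, hFt, rfl⟩, hz, hcl, hf, hx, hw, hit⟩ := hu
  refine TWJ.nohit_hrone p h hcv (D := 2) ?_ hK hfull (by rw [htr]) hBDK hg hBD hF hFf
    (by rw [hFt]) hz hcl hf hx hw ?_ hlev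
  · intro K hK hKf htK hBDK
    exact TWJ.lu_bd_two p h (TWJ.stepAll p k 1) (by omega) hK hKf htK hBDK
  · intro l hpl hl
    obtain ⟨w, hw, h1⟩ := hit l hpl hl
    exact ⟨w, hw, h1⟩

/-! ### The level -/

/-- A `p`-th root in the closure of a field with bounded distortion is in the field. -/
theorem mem_of_pow_mem (p : ℕ) [hp : Fact p.Prime] [CharP Ω p] {K₀ : IntermediateField k Ω}
    (hBD : BD p v K₀) {g : Ω} (hg : g ^ p ∈ K₀) (hgc : g ∈ clI v K₀) : g ∈ K₀ := by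
  classical
  have hp0 : 0 < p := hp.out.pos
  obtain ⟨m, s, hs, C, hC⟩ := hBD
  have hos : OI p v (clI v K₀) s C := (OI.of_orth_pb hC hs).cl
  obtain ⟨c, hc, h1⟩ := hs.span _ hg
  let α₀ : Fin m → Fin p := fun _ => ⟨0, hp0⟩
  have hm0 : mon s α₀ = 1 := by
    simp [mon, α₀]
  let c' : (Fin m → Fin p) → Ω := fun α => if α = α₀ then c α - g else c α
  have hc' : ∀ α, c' α ∈ clI v K₀ := by
    intro α
    by_cases h2 : α = α₀
    · simp only [c', if_pos h2]
      exact sub_mem (le_clI K₀ (hc α)) hgc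
    · simp only [c', if_neg h2]
      exact le_clI K₀ (hc α)
  have h2 : pcomb s c' = 0 := by
    have h3 : pcomb s c' = pcomb s c - g ^ p := by
      unfold pcomb
      rw [← Finset.add_sum_erase _ _ (Finset.mem_univ α₀),
        ← Finset.add_sum_erase (s := Finset.univ) (f := fun α => c α ^ p * mon s α)
          (Finset.mem_univ α₀)]
      have h4 : ∑ α ∈ Finset.univ.erase α₀, c' α ^ p * mon s α =
          ∑ α ∈ Finset.univ.erase α₀, c α ^ p * mon s α := by
        refine Finset.sum_congr rfl fun α hα => ?_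
        simp only [c', if_neg (Finset.ne_of_mem_erase hα)]
      rw [h4]
      simp only [c', if_true, hm0, mul_one]
      rw [sub_pow_char]
      ring
    rw [h3, ← h1, sub_self]
  have h3 : c' α₀ ^ p * mon s α₀ = 0 := by
    by_contra h4
    have h5 := hos c' hc' (v (c' α₀ ^ p * mon s α₀) + C + 1) (by rw [h2]; exact RVal.Ge.zero) α₀ h4
    linarith
  rw [hm0, mul_one] at h3
  have h4 : c α₀ - g = 0 := by
    have := eq_zero_of_pow_eq_zero h3
    simpa [c'] using this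
  rw [← sub_eq_zero.1 h4]
  exact hc α₀

/-- **The level of `g ^ p`.** -/
theorem exists_level (p : ℕ) [hp : Fact p.Prime] [CharP Ω p] {K₀ : IntermediateField k Ω}
    (hBD : BD p v K₀) {g : Ω} (hg0 : g ∉ K₀) (hg : g ^ p ∈ K₀) :
    ∃ ν : ℝ, LP p v (clI v K₀) ν (g ^ p) ∧ ∀ x ∈ clI v K₀, ¬ Gt v ν (g ^ p - x ^ p) := by
  have hp0 : (0 : ℝ) < p := by exact_mod_cast hp.out.pos
  have hgc : g ∉ clI v (clI v K₀) := by
    rw [clI_clI]
    exact fun h1 => hg0 (mem_of_pow_mem p hBD hg h1)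
  obtain ⟨ρ, h1, h2⟩ := TWJ.exists_dist hgc
  refine ⟨p * ρ, fun ε hε => ?_, fun x hx h3 => ?_⟩
  · obtain ⟨θ, hθ, h3⟩ := h2 (ε / p) (by positivity)
    refine ⟨θ, hθ, fun h4 => ?_⟩
    rw [← sub_pow_char] at h4 ⊢
    have h5 : g - θ ≠ 0 := fun h6 => h4 (by rw [h6, zero_pow hp.out.ne_zero])
    rw [v.map_pow h5]
    have h6 : (p : ℝ) * (ρ - ε / p) = p * ρ - ε := by
      field_simp
    nlinarith
  · have h4 : g - x ≠ 0 := fun h5 => hgc (by rw [sub_eq_zero.1 h5, clI_clI]; exact hx)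
    have h5 := h3 (by
      rw [← sub_pow_char]
      exact pow_ne_zero _ h4)
    rw [← sub_pow_char, v.map_pow h4] at h5
    have h6 := h1 x hx
    nlinarith

end Pool.Agent.TWS7
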