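import Pool.Agent.Lib.TWN1.GabE2
import Pool.Agent.Lib.TWEX.Inf
import Pool.Agent.Lib.TWS7.Unhit

/-!
# TANK W, line (II), assembly: the dichotomy

`dich`: `L` a tower of two floors over `C = N(y)`, `y` a strict floor over `N`, `σ` irrational; an
element of `L` which is a limit of `p`-th powers up to `ν` is unhit by the top floor of some
presentation of `L`, or the arc of `C` extends to a strict overconvergent arc of `L` and the two
coordinates of a presentation have finitely many jets.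
-/

set_option autoImplicit false

open Polynomial Finset

namespace Pool.Agent.TWS7

open Pool.Agent.H15JM (RVal)
open Pool.Agent.LU1 (adj)
open Pool.Agent.D2P (hen clI mem_clI mem_adj_self)
open Pool.Agent.TWM
open Pool.Agent.TWII (PG LP)
open Pool.Agent.TWLM (HSd Oi Arc)
open Pool.Agent.TWN1 (Unh Res FinS Gen2 n1_res)
open Pool.Agent.TWEX (SFl SDat KArc FinSh)

universe u'

variable {k Ω : Type u'} [Field k] [Field Ω] [Algebra k Ω] {v : RVal Ω}

variable {N L : IntermediateField k Ω} {y u w : Ω} {σ ρ s ν : ℝ} {D : ℕ → Ω → Ω}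

/-- Another presentation. -/
theorem STow.gen {p : ℕ} (h : STow p v N y σ D u ρ w s L) {z z' : Ω} {r r' : ℝ}
    (hg : Gen2 v (cadj v N y) L z r z' r') : STow p v N y σ D z r z' r' L :=
  ⟨h.cN, h.val, h.sfl, h.fg, h.irr, hg.t1, hg.t2, hg.eq⟩

/-- The unhit case. -/
theorem unhit_of_unh {p d : ℕ} {E : IntermediateField k Ω} {z : Ω} {r : ℝ} {a : Ω}
    (hE : FGc v d E) (hz : TL v E z r) (hL : L = cadj v E z) (h : Unh p v E L z r ν a) :
    Unhit p v d L ν a := by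
  obtain ⟨f, hf, ⟨g, hg, h1⟩, h2⟩ := h
  refine ⟨E, z, r, f, g, hE, hz, hL, hf, hg, ?_, h2⟩
  rwa [sub_right_comm] at h1

variable (p : ℕ) [hp : Fact p.Prime] [CharP Ω p] [IsAlgClosed Ω]

/-- **The dichotomy**, shapes. -/
theorem dich_shape (hΩ : CompleteV v) (h : STow p v N y σ D u ρ w s L) {a : Ω} (ha : a ∈ L)
    (hlim : LP p v L ν a) : Unhit p v 3 L ν a ∨ ∃ (u' w' : Ω) (ρ' s' : ℝ),
      STow p v N y σ D u' ρ' w' s' L ∧ FinSh v (cadj v N y) σ ρ' D u' ∧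
      ∀ Ψ₁ : ℕ → Ω → Ω, Arc v (cadj v (cadj v N y) u') σ Ψ₁ →
        Oi v (cadj v (cadj v N y) u') σ Ψ₁ → (∀ l : ℕ, ∀ x ∈ cadj v N y, Ψ₁ l x = D l x) →
        FinSh v (cadj v (cadj v N y) u') σ s' Ψ₁ w' := by
  rcases n1_res hΩ (TWEX.SFl.arc' h.sfl) h.sfl.oi h.tu h.tw h.eq ha hlim with
    ⟨z, z', r, r', hg, h1⟩ | ⟨z, z', r, r', hg, h1, h2⟩
  · exact Or.inl (unhit_of_unh (h.fg.cadj hg.t1) hg.t2 hg.eq h1)
  · exact Or.inr ⟨z, z', r, r', h.gen hg, h1, h2⟩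

/-- **The dichotomy**, arcs. -/
theorem dich (hΩ : CompleteV v) (h : STow p v N y σ D u ρ w s L) {a : Ω} (ha : a ∈ L)
    (hlim : LP p v L ν a) : Unhit p v 3 L ν a ∨ ∃ (u' w' : Ω) (ρ' s' : ℝ) (Ψ : ℕ → Ω → Ω),
      STow p v N y σ D u' ρ' w' s' L ∧ KArc p v N y σ D L u' w' ρ' s' Ψ := by
  rcases dich_shape p hΩ h ha hlim with h1 | ⟨u', w', ρ', s', h1, h2, h3⟩
  · exact Or.inl h1
  · obtain ⟨Ψ, h4⟩ := TWEX.exists_karc hΩ h1.sdat h2 h3
    exact Or.inr ⟨u', w', ρ', s', Ψ, h1, h4⟩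

end Pool.Agent.TWS7
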