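import Pool.Agent.Lib.TWS7.Fin
import Pool.Agent.Lib.TWS7.Dich
import Pool.Agent.Lib.TWEX.KArc0
import Pool.Agent.Lib.TWMF.S7
import Pool.Agent.Lib.TWM.S9d

/-!
# TANK W, leaf (II), row S7.5: assembly of the strict case

`mobQ0_of_mot`: motions with a small effect give the critical step; `mobQ0_strict_of`: leaf (II),
first floor strict, `σ` irrational, from the exit (motions with a small effect from an arc with
finitely many jets over the completion).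
-/

set_option autoImplicit false

open Polynomial

namespace Pool.Agent.TWS7

open Pool.Agent.H15JM (RVal)
open Pool.Agent.LU1 (VPos adj)
open Pool.Agent.D2 (Ctx0)
open Pool.Agent.D2P (hen clI mem_clI mem_adj_self)
open Pool.Agent.TWM
open Pool.Agent.TWII (PG LP)
open Pool.Agent.TWLM (Arc Oi)
open Pool.Agent.TWEX (FinSh KArc0 exists_karc0)
open Pool.Agent.TW (Ctx Full BD HRone LU Mot)

universe u'

variable {k Ω : Type u'} [Field k] [Field Ω] [Algebra k Ω] {v : RVal Ω}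

/-- The exit over a completion: an arc with finitely many jets gives motions of `K₀` whose effect
on `a` is small. -/
def ExitC (p : ℕ) (v : RVal Ω) (K₀ : IntermediateField k Ω) (a : Ω) {Ω' : Type u'} [Field Ω']
    [Algebra k Ω'] (w : RVal Ω') (ι : Ω →ₐ[k] Ω') : Prop :=
  ∀ (x y : Ω') (σ : ℝ) (D : ℕ → Ω' → Ω') (u : Ω') (ρ : ℝ) (z : Ω') (s : ℝ) (Ψ : ℕ → Ω' → Ω'),
    x ≠ 0 → w x ≠ 0 →
    STow p w (cadj w (⊥ : IntermediateField k Ω') x) y σ D u ρ z s (clI w (K₀.map ι)) →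
    KArc0 p w (adj (⊥ : IntermediateField k Ω') x) (cadj w (⊥ : IntermediateField k Ω') x) y σ D
      (clI w (K₀.map ι)) u z ρ s Ψ →
    ∀ ν : ℝ, LP p w (clI w (K₀.map ι)) ν (ι a) →
      (∀ b ∈ clI w (K₀.map ι), ¬ Gt w ν (ι a - b ^ p)) → MotE p v K₀ ν a

/-- The critical step from motions with a small effect. -/
theorem mobQ0_of_mot [IsAlgClosed k] [IsAlgClosed Ω] (p : ℕ) [Fact p.Prime] [CharP k p]
    [CharP Ω p] (h : Ctx k v 1) {K₀ : IntermediateField k Ω} (hK : K₀.FG)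
    (hΩ : ∀ g : Ω, IsAlgebraic K₀ g) (hBDK : BD p v K₀) (hgr : PDiv p v K₀) {a : Ω} (ha : a ∈ K₀)
    {ν : ℝ} (hM : MotE p v K₀ ν a) (hlev : ∀ b ∈ clI v K₀, ¬ Gt v ν (a - b ^ p)) :
    ∃ (φ : ℕ → (Ω ≃ₐ[k] Ω)) (δ : ℕ → Ω) (ρ : ℝ), Mot v K₀ φ δ ρ ∧
      ∀ i, ∃ c ∈ hen v K₀, ∃ b ∈ hen v K₀, c ≠ 0 ∧ φ i a = c ^ p * a + b ^ p := by
  obtain ⟨φ, δ, μ, κ, hκ, hM, heff⟩ := hM
  obtain ⟨φ', h1, h2⟩ := TWMF.Stb.mot_abs h.toCtx0 hK hΩ hBDK hgr hM hκ ha hlev heff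
  exact ⟨φ', δ, μ, h1, h2⟩

/-- **S7.5**: leaf (II), first floor strict, `σ` irrational, from the exit. -/
theorem mobQ0_strict_of [IsAlgClosed k] [IsAlgClosed Ω] (p : ℕ) [Fact p.Prime] [CharP k p]
    [CharP Ω p] (h : Ctx k v 1) {K₀ : IntermediateField k Ω} (hK : K₀.FG)
    (hΩ : ∀ g : Ω, IsAlgebraic K₀ g) (htr : Algebra.trdeg k K₀ = (4 : ℕ)) (hBDK : BD p v K₀)
    (hgr : PDiv p v K₀) {g : Ω} (hg : g ∉ K₀) (hgp : g ^ p ∈ K₀) (hBD : BD p v (adj K₀ g))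
    (hst : STc p v K₀)
    (hexit : ∀ (Ω' : Type u') (_ : Field Ω') (_ : Algebra k Ω') (ι : Ω →ₐ[k] Ω') (w : RVal Ω')
      (_ : IsAlgClosed Ω'), CompleteV w → Dense v w ι → ExitC p v K₀ (g ^ p) w ι) :
    HRone v (adj K₀ g) ∨
      ∃ (φ : ℕ → (Ω ≃ₐ[k] Ω)) (δ : ℕ → Ω) (ρ : ℝ), Mot v K₀ φ δ ρ ∧
        ∀ i, ∃ c ∈ hen v K₀, ∃ b ∈ hen v K₀, c ≠ 0 ∧ φ i (g ^ p) = c ^ p * g ^ p + b ^ p := by
  obtain ⟨Ω', iF, iA, ι, w, iC, hcw, hd, x, y, σ, D, u, ρ, z, s, hx, hwx, hS⟩ := hst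
  have : CharP Ω' p := Dense.charP ι p
  have hgm : ι (g ^ p) ∈ clI w (K₀.map ι) := le_clI _ (Dense.apply_mem_map.2 hgp)
  rcases alt_of p h hcw hd hK (full_of_all hΩ) htr hBDK hg hgp hBD (fun ν h1 h2 => by
    rcases dich_shape p hcw hS hgm h1 with h3 | ⟨u', w', ρ', s', hS', hu, hz⟩
    · exact Or.inl h3
    · right
      obtain ⟨Ψ, hΨ⟩ := exists_karc0 (N₀ := adj (⊥ : IntermediateField k Ω') x) hcw
        (le_clI _) (fun a ha b => mem_clI.1 ha b) hS'.sdat hu hz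
      exact hexit Ω' iF iA ι w iC hcw hd x y σ D u' ρ' w' s' Ψ hx hwx hS' hΨ ν h1 h2) with
    h1 | ⟨ν, h1, -, h3⟩
  · exact Or.inl h1
  · exact Or.inr (mobQ0_of_mot p h hK hΩ hBDK hgr hgp h1 h3)

end Pool.Agent.TWS7
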