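import Pool.Agent.Lib.TWEX.XdA
import Pool.Agent.Lib.TWEX.XdEff
import Pool.Agent.Lib.TWMF.X4
import Pool.Agent.Lib.TWS7.Asm

/-!
# TANK W, leaf (II): the exit, first floor strict, `σ` irrational

`exitC`: an arc with finitely many jets over the completion gives motions of `K₀` with a small effect.
`mobQ0_strict`: leaf (II), first floor strict over `cl k(x)`, in the form of `MobQ0`.
-/

set_option autoImplicit false

open Polynomial

namespace Pool.Agent.TWS7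

open Pool.Agent.H15JM (RVal)
open Pool.Agent.LU1 (VPos adj)
open Pool.Agent.D2 (Ctx0)
open Pool.Agent.D2P (hen clI mem_clI mem_adj_self)
open Pool.Agent.TWM
open Pool.Agent.TWII (PG LP)
open Pool.Agent.TWLM (Arc Oi)
open Pool.Agent.TWEX (FinSh KArc0 exists_karc0)
open Pool.Agent.TW (Ctx Full BD HRone LU Mot kr)

universe u'

variable {k Ω : Type u'} [Field k] [Field Ω] [Algebra k Ω] {v : RVal Ω}

/-- **The exit.** -/
theorem exitC [IsAlgClosed k] [IsAlgClosed Ω] (p : ℕ) [Fact p.Prime] [CharP k p] [CharP Ω p]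
    (h : Ctx k v 1) {K₀ : IntermediateField k Ω} (hK : K₀.FG) (hΩ : ∀ g : Ω, IsAlgebraic K₀ g)
    (htr : Algebra.trdeg k K₀ = (4 : ℕ)) (hBDK : BD p v K₀) {a : Ω} (ha : a ∈ K₀)
    {Ω' : Type u'} [Field Ω'] [Algebra k Ω'] [IsAlgClosed Ω'] {w : RVal Ω'} {ι : Ω →ₐ[k] Ω'}
    (hcw : CompleteV w) (hd : Dense v w ι) : ExitC p v K₀ a w ι := by
  intro x y σ D u ρ z s Ψ hx hwx hS hA ν hlp _
  have : CharP Ω' p := Dense.charP ι p
  have hN₀ := TWEX.adj_bot (k := k) x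
  have hcl : clI w (K₀.map ι) = clI w (kr k (![x, y, u, z] : Fin 4 → Ω')) := by
    rw [← TWEX.cl_tower]
    exact hS.eq
  have h0' : Ctx0 k w := hd.ctx0 h.toCtx0
  obtain ⟨-, -, -, -, hind, -⟩ := TWEX.exists_pull h.toCtx0 hcw hd hK htr hBDK hcl 0
  obtain ⟨H, hH, hX⟩ := TWEX.exists_xd hA h0' hcw hS.cN hN₀ hx hwx hind
  have hgm : ι a ∈ clI w (K₀.map ι) := le_clI _ (Dense.apply_mem_map.2 ha)
  exact TWMF.motE_of_xd h hcw hd hK hΩ htr hBDK hcl hX ha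
    (TWEX.exists_ed hA hN₀ hH hgm hlp (ν + 1))

/-- **S7.5**: leaf (II), first floor strict over the closure of `k(x)`, `σ` irrational. -/
theorem mobQ0_strict [IsAlgClosed k] [IsAlgClosed Ω] (p : ℕ) [Fact p.Prime] [CharP k p]
    [CharP Ω p] (h : Ctx k v 1) {K₀ : IntermediateField k Ω} (hK : K₀.FG)
    (hΩ : ∀ g : Ω, IsAlgebraic K₀ g) (htr : Algebra.trdeg k K₀ = (4 : ℕ)) (hBDK : BD p v K₀)
    (hgr : PDiv p v K₀) {g : Ω} (hg : g ∉ K₀) (hgp : g ^ p ∈ K₀) (hBD : BD p v (adj K₀ g))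
    (hst : STc p v K₀) : HRone v (adj K₀ g) ∨
      ∃ (φ : ℕ → (Ω ≃ₐ[k] Ω)) (δ : ℕ → Ω) (ρ : ℝ), Mot v K₀ φ δ ρ ∧
        ∀ i, ∃ c ∈ hen v K₀, ∃ b ∈ hen v K₀, c ≠ 0 ∧ φ i (g ^ p) = c ^ p * g ^ p + b ^ p :=
  mobQ0_strict_of p h hK hΩ htr hBDK hgr hg hgp hBD hst fun _ _ _ _ _ _ hcw hd =>
    exitC p h hK hΩ htr hBDK hgp hcw hd

end Pool.Agent.TWS7
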