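import Pool.Agent.Lib.TWC.TopD
import Pool.Agent.Lib.TWC.JDC
import Pool.Agent.Lib.TWEX.Flo
import Pool.Agent.Lib.TWS7.Defs

/-!
# TANK W, line (II): from the strict base of the top file to a strict floor

`y` of transcendental type over the closure of `k(x_0, x_1, ..)`, strict over the `cl k(x_i)`:

* `T2.sfl`: `y` is a strict floor over `N = cl k(x_0)`;
* `T2.gens`: `N<y>` is the closure of a finitely generated field of transcendence degree two;
* `irr_of_not_rat`: the radius is not commensurable with the values.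
-/

set_option autoImplicit false

open Polynomial

namespace Pool.Agent.TWS7

open Pool.Agent.H15JM (RVal)
open Pool.Agent.LU1 (VPos adj)
open Pool.Agent.D2 (Ctx0)
open Pool.Agent.D2P (clI mem_clI mem_adj_self rootF)
open Pool.Agent.TWM
open Pool.Agent.TWC
open Pool.Agent.TWS (TowR)
open Pool.Agent.TWEX (SFl)
open Pool.Agent.TW (Ctx Full BD HRone LU)

universe u

variable {k Ω : Type u} [Field k] [Field Ω] [Algebra k Ω] {v : RVal Ω}

/-- The elements of `cl k(x_n)` are purely inseparable over `cl k(x_0)`. -/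
theorem pow_mem_cadj (p : ℕ) [hp : Fact p.Prime] [IsAlgClosed k] [IsAlgClosed Ω] [CharP k p]
    [CharP Ω p] {X : ℕ → Ω} (hX : ∀ n, X (n + 1) ^ p = X n) : ∀ (n : ℕ) {a : Ω},
    a ∈ cadj v (⊥ : IntermediateField k Ω) (X n) →
    a ^ p ^ n ∈ cadj v (⊥ : IntermediateField k Ω) (X 0) := by
  have hP : ∀ a ∈ (⊥ : IntermediateField k Ω), ∃ b ∈ (⊥ : IntermediateField k Ω), b ^ p = a := by
    intro a ha
    obtain ⟨c, rfl⟩ := IntermediateField.mem_bot.1 ha
    obtain ⟨d, rfl⟩ := IsAlgClosed.exists_pow_nat_eq c hp.out.pos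
    exact ⟨algebraMap k Ω d, IntermediateField.algebraMap_mem _ _, (map_pow _ d p).symm⟩
  intro n
  induction n with
  | zero =>
    intro a ha
    rwa [pow_zero, pow_one]
  | succ n ih =>
    intro a ha
    rw [pow_succ', pow_mul]
    refine ih ?_
    rw [← rootF_cadj_perf (v := v) p hP hX n] at ha
    exact (mem_rootF1 p).1 ha

variable {X : ℕ → Ω} {y : Ω} {s : ℝ}

theorem T2.sfl (p : ℕ) [hp : Fact p.Prime] [IsAlgClosed k] [IsAlgClosed Ω] [CharP k p]
    [CharP Ω p] (hc : CompleteV v) (h : T2 p k v X y s) (hS : StrF k v X y s) :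
    ∃ D : ℕ → Ω → Ω, SFl p v (cadj v (⊥ : IntermediateField k Ω) (X 0)) y s D := by
  refine TWEX.exists_sfl p hc (fun θ hθ => ?_) (fun ε hε => ?_) fun l hl => hS 0 l hl
  · obtain ⟨h1, h2⟩ := h.tl.far θ (D2P.isAlgebraic_mono (EW.cadj_le 0) hθ)
    exact ⟨h1, h2.le⟩
  · obtain ⟨a, ha, h1⟩ := h.tl.lim ε hε
    obtain ⟨n, g, hg, h2⟩ := EW.near_adj p h.root ha (s - ε)
    refine ⟨n, g, pow_mem_cadj p h.root n (LUC.Cl.subset hg), ?_⟩
    rw [show y - g = (y - a) + (a - g) by ring]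
    exact h1.add h2

theorem T2.gens (p : ℕ) [IsAlgClosed k] (h0 : Ctx k v 1) (h : T2 p k v X y s) :
    ∃ F : IntermediateField k Ω, F.FG ∧ Full v F ∧ Algebra.trdeg k F = (2 : ℕ) ∧
      CP (k := k) v (X 0) y = clI v F := by
  refine ⟨adj (adj ⊥ (X 0)) y, D2P.fg_adj (D2P.fg_adj IntermediateField.fg_bot _) y, ?_, ?_,
    clI_adj_clI⟩
  · exact full_of_mem h0 ((mem_adj_self _ y).2 (mem_adj_self _ (X 0)).1) h.ne h.neg.ne
  · have h1 : Transcendental (adj (⊥ : IntermediateField k Ω) (X 0)) y :=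
      TL.transcendental h.tl ((TWM.le_clI _).trans (EW.cadj_le 0))
    rw [TW.HRLU.trdeg_adj h1, trdeg_adj_bot h0.toCtx0 h.ne h.neg.ne]
    norm_num

/-- The radius is not commensurable with the values of `Ω`. -/
theorem irr_of_not_rat (h0 : Ctx k v 1) {x : Ω} (hx0 : x ≠ 0) (hx : v x ≠ 0)
    (hr : ¬ RatR (v x) s) : ∀ n : ℕ, n ≠ 0 → ∀ f : Ω, f ≠ 0 → v f ≠ n * s := by
  intro n hn f hf he
  have h1 : Full v (adj (⊥ : IntermediateField k Ω) x) :=
    full_of_mem h0 (mem_adj_self _ x).1 hx0 hx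
  obtain ⟨Y, hY0, hYl, hYs⟩ := h0.rank
  have h2 : ∀ g : Ω, g ≠ 0 → ∃ q : ℚ, v g = q * v (Y 0) := by
    intro g hg
    obtain ⟨c, hc⟩ := (Submodule.mem_span_range_iff_exists_fun ℚ).1 (hYs g hg)
    refine ⟨c 0, ?_⟩
    rw [← hc, Fin.sum_univ_one, Rat.smul_def]
  obtain ⟨q, hq⟩ := h2 f hf
  obtain ⟨q', hq'⟩ := h2 x hx0
  have hq'0 : q' ≠ 0 := by
    rintro rfl
    exact hx (by rw [hq', Rat.cast_zero, zero_mul])
  -- n s = q Y, v x = q' Y
  have h3 : (n : ℝ) * s = (q / q' : ℚ) * v x := by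
    rw [← he, hq, hq']
    push_cast
    field_simp
  refine hr ⟨n * (q / q').den, mul_ne_zero hn (Rat.den_ne_zero _), (q / q').num, ?_⟩
  have h4 : ((q / q' : ℚ) : ℝ) * ((q / q').den : ℝ) = ((q / q').num : ℝ) := by
    have := Rat.mul_den_eq_num (q / q')
    exact_mod_cast this
  push_cast
  calc (n : ℝ) * ((q / q').den : ℝ) * s = ((q / q').den : ℝ) * (n * s) := by ring
    _ = ((q / q' : ℚ) : ℝ) * ((q / q').den : ℝ) * v x := by rw [h3]; ring
    _ = _ := by rw [h4]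

/-- **The strict tower**, `Ω` complete. -/
theorem T3.stow (p : ℕ) [hp : Fact p.Prime] [IsAlgClosed k] [IsAlgClosed Ω] [CharP k p]
    [CharP Ω p] (h : Ctx k v 1) (hc : CompleteV v) {K₀ : IntermediateField k Ω}
    (hT : T3 p v K₀ X y s) (hS : StrF k v X y s) (hr : ¬ RatR (v (X 0)) s) :
    ∃ D u ρ w t, STow p v (cadj v (⊥ : IntermediateField k Ω) (X 0)) y s D u ρ w t
      (clI v K₀) := by
  obtain ⟨D, hD⟩ := T2.sfl p hc hT.base hS
  have ht := hT.tow
  generalize hB : clI v K₀ = B at ht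
  cases ht with
  | @succ n A B u ρ hu ht =>
    cases ht with
    | @succ n A B w t hw ht =>
      cases ht with
      | zero _ =>
        exact ⟨D, u, ρ, w, t,
          { cN := cld_clI v _
            val := ⟨X 0, self_mem_cadj _ _ _, hT.base.ne, hT.base.neg.ne⟩
            sfl := hD
            fg := T2.gens p h hT.base
            irr := fun n hn f _ hf => irr_of_not_rat h hT.base.ne hT.base.neg.ne hr n hn f hf
            tu := hu
            tw := hw
            eq := rfl }⟩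

/-- The base of rational radius. -/
theorem hasTP_of_rat {p : ℕ} [Fact p.Prime] [IsAlgClosed k] [IsAlgClosed Ω] [CharP k p]
    [CharP Ω p] (h0 : Ctx0 k v) (hc : CompleteV v) (hPF : PairRat p k) (hT : T2 p k v X y s)
    (hr : RatR (v (X 0)) s) : HasTP p v (CP (k := k) v (X 0) y) := by
  obtain ⟨φ, hφ⟩ := TWS.exists_emb (k := k) h0
  have hI : TWS.IsoE v (TWS.hv k) φ := ⟨hφ⟩
  have : CharP (TWS.HF k) p :=
    charP_of_injective_algebraMap (algebraMap k (TWS.HF k)).injective p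
  have hT' := hT.map hI hc
  have h1 := hPF (TWS.HF k) (TWS.hv k) (TWS.ctx0_hv k) (TWS.completeV_hv k) (TWS.sphC_hv k)
    (TWS.exists_val k) (fun n => φ (X n)) (φ y) s hT' (by rwa [hφ _ hT.ne])
  simp only [← cp_map hI hc] at h1
  exact h1.of_map hI hc

/-- **`HRone`, or the completion contains a strict tower.** -/
theorem hrone_or_stc (p : ℕ) [hp : Fact p.Prime] [IsAlgClosed k] [IsAlgClosed Ω] [CharP k p]
    [CharP Ω p] (h : Ctx k v 1) (hPF : PairRat p k) (hPI : PairIrr p k)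
    {K₀ : IntermediateField k Ω} (hK : K₀.FG) (hfull : Full v K₀)
    (htr : Algebra.trdeg k K₀ = (4 : ℕ)) (hBDK : BD p v K₀) {al : Ω} (hal : al ^ p ∈ K₀)
    (hBD : BD p v (adj K₀ al)) (ht : T3c p v K₀ fun _ _ _ _ _ _ _ => True) :
    HRone v (adj K₀ al) ∨ STc p v K₀ := by
  obtain ⟨Ω', iF, iA, ι, v', iC, h2, h3, X, y, s, h4, -⟩ := ht
  have : CharP Ω' p := Dense.charP ι p
  have hc' : Ctx k v' 1 := Dense.ctx h3 h
  have hT := hrone_or_str hc' h2 (K₀ := K₀.map ι) (al := ι al)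
  have hstep : HRone v' (adj (K₀.map ι) (ι al)) → HRone v (adj K₀ al) := by
    intro h5
    rw [← TWM.Dense.adj_map] at h5
    exact (Dense.hrone_iff h3).1 h5
  by_cases hr : RatR (v' (X 0)) s
  · left
    refine hstep ?_
    have h5 : HasTP p v' (CP (k := k) v' (X 0) y) :=
      hasTP_of_rat hc'.toCtx0 h2 hPF h4.base hr
    obtain ⟨x, w, r, t, h6, h7, h8, h9⟩ := h5
    exact hrone_of_tp0 p hc' h2 (by norm_num) le_rfl (Dense.fg_map hK)
      ((Dense.full_iff h3).2 hfull) (by rw [Dense.trdeg_map]; exact htr)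
      ((Dense.bd_iff h3).2 hBDK) (by rw [← map_pow]; exact ⟨_, hal, rfl⟩)
      (by rw [← TWM.Dense.adj_map]; exact (Dense.bd_iff h3).2 hBD) h6 h7
      (by rw [← h9]; exact h8) (by rw [← h9]; exact h4.tow)
      (transc_of_far h8.tgt.root h8.mem h8.root h8.far)
  · rcases hT hPF hPI (Dense.fg_map hK)
      ((Dense.full_iff h3).2 hfull) (by rw [Dense.trdeg_map]; exact htr)
      ((Dense.bd_iff h3).2 hBDK) (by rw [← map_pow]; exact ⟨_, hal, rfl⟩)
      (by rw [← TWM.Dense.adj_map]; exact (Dense.bd_iff h3).2 hBD) h4 with h5 | h5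
    · exact Or.inl (hstep h5)
    · obtain ⟨D, u, ρ, w, t, h6⟩ := T3.stow p hc' h2 h4 h5 hr
      exact Or.inr ⟨Ω', iF, iA, ι, v', iC, h2, h3, _, _, _, _, _, _, _, _, h4.base.ne,
        h4.base.neg.ne, h6⟩

end Pool.Agent.TWS7
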