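import Pool.Agent.Lib.TWS7.Unhit
import Pool.Agent.Lib.TWJ2.Aut
import Pool.Agent.Lib.TWEX.OpnU

/-!
# TANK W: the exit if the top floor is not hit, over a base which is not finitely generated

* `sl_of_pth`: if the coefficients of index `≥ p` are `p`-th powers or small, then an index `< p` is
  responsible;
* `exists_sub_frame`: finitely many polynomials over the closure of `B` are near to polynomials over
  a frame, in the closure of `B`, which generates `K` together with `y`;
* `nohit_union`: `clI K₀ = clI B(y)`, `y` of transcendental type over the closure of `B`, `B` any field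
  of transcendence degree `trdeg K₀ - 1`; `al ^ p = f(y)` mod `p`-th powers and errors, every jet of
  order `l ≠ 0` divisible by `p` is a `p`-th power up to `> ν - l s`. Then `HRone`.
-/

set_option autoImplicit false

open Polynomial Finset

namespace Pool.Agent.TWS7

open Pool.Agent.H15JM (RVal)
open Pool.Agent.LU1 (adj)
open Pool.Agent.D2 (Ctx0)
open Pool.Agent.D2P (hen clI mem_clI mem_adj_self adj_le)
open Pool.Agent.TWM
open Pool.Agent.TW (Ctx Full BD HRone LU PBasis Fr Dns kr)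
open Pool.Agent.TWJ (Stt)

universe u

variable {k Ω : Type u} [Field k] [Field Ω] [Algebra k Ω] {v : RVal Ω}

/-! ### Fields of full transcendence degree -/

/-- Algebraic elements have values commensurable with those of the field. -/
theorem exists_val_of_alg {E : IntermediateField k Ω} {g : Ω} (hg : g ≠ 0)
    (ha : IsAlgebraic E g) : ∃ m : ℕ, 0 < m ∧ ∃ c ∈ E, c ≠ 0 ∧ v c = m * v g := by
  obtain ⟨P, hP, hPg⟩ := ha
  rw [aeval_def, eval₂_eq_sum, sum_def] at hPg
  have hne : ∃ i ∈ P.support, algebraMap E Ω (P.coeff i) * g ^ i ≠ 0 := by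
    obtain ⟨i, hi⟩ := (Polynomial.nonempty_support_iff).mpr hP
    refine ⟨i, hi, mul_ne_zero ?_ (pow_ne_zero _ hg)⟩
    rw [_root_.map_ne_zero]
    exact mem_support_iff.mp hi
  obtain ⟨i, hi, j, hj, hij, hfi, hfj, heq⟩ := LU1.ExtVal_H2.two_min v _ _ hPg hne
  have key : ∀ i j : ℕ, i < j → algebraMap E Ω (P.coeff i) * g ^ i ≠ 0 →
      algebraMap E Ω (P.coeff j) * g ^ j ≠ 0 →
      v (algebraMap E Ω (P.coeff i) * g ^ i) = v (algebraMap E Ω (P.coeff j) * g ^ j) →
      ∃ m : ℕ, 0 < m ∧ ∃ c ∈ E, c ≠ 0 ∧ v c = m * v g := by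
    intro i j hij hfi hfj heq
    have hi0 := left_ne_zero_of_mul hfi
    have hj0 := left_ne_zero_of_mul hfj
    refine ⟨j - i, Nat.sub_pos_of_lt hij, algebraMap E Ω (P.coeff i) / algebraMap E Ω (P.coeff j),
      div_mem (P.coeff i).2 (P.coeff j).2, div_ne_zero hi0 hj0, ?_⟩
    rw [v.map_mul hi0 (pow_ne_zero _ hg), v.map_pow hg, v.map_mul hj0 (pow_ne_zero _ hg),
      v.map_pow hg] at heq
    rw [div_eq_mul_inv, v.map_mul hi0 (inv_ne_zero hj0), v.map_inv hj0, Nat.cast_sub hij.le]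
    linarith
  rcases lt_or_gt_of_ne hij with h1 | h1
  · exact key i j h1 hfi hfj heq
  · exact key j i h1 hfj hfi heq.symm

/-- The values of a field over which `B` is algebraic. -/
theorem full_of_alg_le {E B : IntermediateField k Ω} (hB : Full v B)
    (ha : ∀ a ∈ B, IsAlgebraic E a) : Full v E := by
  intro g hg
  obtain ⟨m, hm, c, hc, hc0, h1⟩ := hB g hg
  obtain ⟨m', hm', c', hc', hc'0, h2⟩ := exists_val_of_alg (v := v) hc0 (ha c hc)
  exact ⟨m' * m, Nat.mul_pos hm' hm, c', hc', hc'0, by rw [h2, h1]; push_cast; ring⟩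

/-- A finite transcendence basis. -/
theorem exists_ind {n : ℕ} {B : IntermediateField k Ω} (htr : Algebra.trdeg k B = (n : ℕ)) :
    ∃ w : Fin n → Ω, AlgebraicIndependent k w ∧ ∀ i, w i ∈ B := by
  obtain ⟨ι, x, hx⟩ := exists_isTranscendenceBasis' k B
  have h1 : Cardinal.mk ι = n := by rw [← htr, hx.cardinalMk_eq_trdeg]
  have h2 : Cardinal.mk ι = Cardinal.mk (ULift (Fin n)) := by
    rw [h1]
    simp
  obtain ⟨e⟩ := Cardinal.eq.1 h2
  refine ⟨fun i => (x (e.symm ⟨i⟩) : Ω), ?_, fun i => (x _).2⟩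
  have h3 : AlgebraicIndependent k (fun i : Fin n => x (e.symm ⟨i⟩)) :=
    hx.1.comp _ (fun i j hij => by
      have := e.symm.injective hij
      exact ULift.up_injective this)
  exact h3.map' (f := B.val) (by exact B.val.injective)

/-- The finitely generated subfields of `B` which contain a transcendence basis. -/
theorem exists_base_fg {n : ℕ} {B : IntermediateField k Ω} (hBf : Full v B)
    (htr : Algebra.trdeg k B = (n : ℕ)) : ∃ F₀ : IntermediateField k Ω, F₀.FG ∧ F₀ ≤ B ∧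
      ∀ F : IntermediateField k Ω, F₀ ≤ F → F ≤ B → Full v F ∧ Algebra.trdeg k F = (n : ℕ) := by
  obtain ⟨w, hw, hwB⟩ := exists_ind htr
  refine ⟨kr k w, IntermediateField.fg_adjoin_of_finite (Set.finite_range _), ?_, ?_⟩
  · rw [kr, IntermediateField.adjoin_le_iff]
    rintro _ ⟨i, rfl⟩
    exact hwB i
  · intro F hF hFB
    have hwF : ∀ i, w i ∈ F := fun i => hF (IntermediateField.subset_adjoin k _ ⟨i, rfl⟩)
    have halg : ∀ a ∈ B, IsAlgebraic F a := fun a ha =>
      alg_of_trdeg hw hwB hwF (by rw [htr]; simp) ha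
    refine ⟨full_of_alg_le hBf halg, ?_⟩
    rw [← htr]
    exact (TW.trdeg_eq_of_alg hFB halg).symm

/-! ### The slope -/

/-- **The coefficients of index `≥ p` are `p`-th powers or small.** -/
theorem sl_of_pth (p : ℕ) [hp : Fact p.Prime] [CharP Ω p] {M : IntermediateField k Ω} {X : Ω}
    {r ν δ : ℝ} {A : Polynomial Ω} (hA : A ∈ PI M) (hX : Gt v r X) (hδ : 0 < δ) {W : ℕ → Ω}
    (hW : ∀ l, W l ∈ M)
    (hl : ∀ l : ℕ, p ≤ l → v.Ge (ν + δ - l * r) (A.coeff l - if p ∣ l then W l ^ p else 0))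
    (hbd : ∀ c : ℝ, ∀ g ∈ PI M, GB v r c (A - g ^ p) → c ≤ ν) :
    ∃ κ : ℝ, SL p v M X r κ (p - 1) A := by
  classical
  have hp0 : 0 < p := hp.out.pos
  set s : Set ℝ := {c | ∃ g ∈ PI M, GB v r c (A - g ^ p)} with hs
  have hne : s.Nonempty := by
    obtain ⟨c, hc⟩ := TWJ.exists_GB v A r
    refine ⟨c, 0, zero_mem _, ?_⟩
    rwa [zero_pow hp.out.ne_zero, sub_zero]
  have hbd' : ∀ c ∈ s, c ≤ ν := by
    rintro c ⟨g, hg, hc⟩
    exact hbd c g hg hc
  have hκν : sSup s ≤ ν := csSup_le hne hbd'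
  refine ⟨sSup s, hA, hX, fun ε hε => ?_, fun e he h hh => ?_⟩
  · obtain ⟨c, ⟨g, hg, hc⟩, h2⟩ := exists_lt_of_lt_csSup hne (show sSup s - ε < sSup s by linarith)
    exact ⟨g, hg, hc.mono h2.le⟩
  · by_contra hcon
    push Not at hcon
    have hcon' : ∀ m ≤ p - 1, v.Ge (sSup s + e - m * r) ((A - h ^ p).coeff m) := by
      intro m hm
      exact hcon m hm
    set N : ℕ := A.natDegree with hN
    set G : Polynomial Ω := ∑ j ∈ Finset.range (N + 1),
      C (if j = 0 then h.coeff 0 else W (p * j)) * Polynomial.X ^ j with hG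
    have hGc : ∀ j : ℕ, j ≤ N → G.coeff j = if j = 0 then h.coeff 0 else W (p * j) := by
      intro j hj
      rw [hG, finsetSum_coeff]
      simp only [coeff_C_mul, coeff_X_pow]
      rw [Finset.sum_eq_single j]
      · simp
      · intro b _ hb
        rw [if_neg (Ne.symm hb), mul_zero]
      · intro h1
        exact absurd (Finset.mem_range.2 (by omega)) h1
    have hGc' : ∀ j : ℕ, N < j → G.coeff j = 0 := by
      intro j hj
      rw [hG, finsetSum_coeff]
      refine Finset.sum_eq_zero fun b hb => ?_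
      have hne : j ≠ b := by
        have := Finset.mem_range.1 hb
        omega
      rw [coeff_C_mul, coeff_X_pow, if_neg hne, mul_zero]
    have hGm : G ∈ PI M := by
      intro j
      rcases le_or_gt j N with hj | hj
      · rw [hGc j hj]
        split_ifs
        · exact hh 0
        · exact hW _
      · rw [hGc' j hj]
        exact zero_mem _
    have hGB : GB v r (sSup s + min e δ) (A - G ^ p) := by
      intro m
      rw [coeff_sub, TWJ.coeff_pow_char p]
      rcases lt_or_ge m p with hm | hm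
      · have h1 := hcon' m (by omega)
        rw [coeff_sub, TWJ.coeff_pow_char p] at h1
        have e1 : (if p ∣ m then G.coeff (m / p) ^ p else 0) =
            if p ∣ m then h.coeff (m / p) ^ p else 0 := by
          by_cases hpm : p ∣ m
          · have hm0 : m = 0 := Nat.eq_zero_of_dvd_of_lt hpm hm
            subst hm0
            rw [if_pos hpm, if_pos hpm, Nat.zero_div, hGc 0 (Nat.zero_le _), if_pos rfl]
          · rw [if_neg hpm, if_neg hpm]
        rw [e1]
        refine h1.mono ?_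
        have := min_le_left e δ
        linarith
      · have h1 := hl m hm
        by_cases hpm : p ∣ m
        · rcases le_or_gt (m / p) N with hj | hj
          · rw [if_pos hpm] at h1 ⊢
            have h3 : m / p ≠ 0 := by
              have := Nat.div_pos hm hp0
              omega
            rw [hGc _ hj, if_neg h3, Nat.mul_div_cancel' hpm]
            refine h1.mono ?_
            have := min_le_right e δ
            linarith
          · rw [if_pos hpm, hGc' _ hj, zero_pow hp.out.ne_zero, sub_zero,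
              coeff_eq_zero_of_natDegree_lt (lt_of_lt_of_le hj (Nat.div_le_self m p))]
            exact RVal.Ge.zero
        · rw [if_neg hpm] at h1 ⊢
          refine h1.mono ?_
          have := min_le_right e δ
          linarith
    have h4 : sSup s + min e δ ≤ sSup s := le_csSup ⟨ν, hbd'⟩ ⟨G, hGm, hGB⟩
    have := lt_min he hδ
    linarith

/-! ### Frames in the base -/

/-- Approximation of polynomials over a closure. -/
theorem exists_poly_near {B : IntermediateField k Ω} {f : Polynomial Ω} (hf : f ∈ PI (clI v B))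
    (b N : ℝ) : ∃ F : IntermediateField k Ω, F.FG ∧ F ≤ B ∧ ∃ f' ∈ PI F, GB v b N (f - f') := by
  classical
  have h1 : ∀ i : ℕ, ∃ c ∈ B, v.Ge (N - i * b) (f.coeff i - c) := fun i => mem_clI.1 (hf i) _
  choose c hcB hc using h1
  set d : ℕ := f.natDegree with hd
  set F : IntermediateField k Ω :=
    IntermediateField.adjoin k (((Finset.range (d + 1)).image c : Finset Ω) : Set Ω) with hF
  have hcF : ∀ i, i ≤ d → c i ∈ F := by
    intro i hi
    refine IntermediateField.subset_adjoin k _ ?_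
    rw [Finset.coe_image]
    exact ⟨i, by simp; omega, rfl⟩
  refine ⟨F, IntermediateField.fg_adjoin_of_finite (Finset.finite_toSet _), ?_,
    ∑ i ∈ Finset.range (d + 1), C (c i) * Polynomial.X ^ i, ?_, ?_⟩
  · rw [hF, IntermediateField.adjoin_le_iff]
    intro x hx
    rw [Finset.coe_image] at hx
    obtain ⟨i, -, rfl⟩ := hx
    exact hcB i
  · refine sum_mem fun i hi => ?_
    have := Finset.mem_range.1 hi
    exact mul_mem (C_mem_PI (hcF i (by omega))) (pow_mem X_mem_PI i)
  · intro m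
    have e : (∑ i ∈ Finset.range (d + 1), C (c i) * Polynomial.X ^ i).coeff m =
        if m ≤ d then c m else 0 := by
      rw [finsetSum_coeff]
      simp only [coeff_C_mul, coeff_X_pow]
      split_ifs with hm
      · rw [Finset.sum_eq_single m]
        · simp
        · intro b _ hb
          rw [if_neg (Ne.symm hb), mul_zero]
        · intro h1
          exact absurd (Finset.mem_range.2 (by omega)) h1
      · refine Finset.sum_eq_zero fun b hb => ?_
        have := Finset.mem_range.1 hb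
        rw [if_neg (by omega), mul_zero]
    rw [coeff_sub, e]
    split_ifs with hm
    · exact hc m
    · rw [coeff_eq_zero_of_natDegree_lt (by omega), sub_zero]
      exact RVal.Ge.zero

/-- Finitely many polynomials over a closure. -/
theorem exists_fg_near {B F₀ : IntermediateField k Ω} (hF₀ : F₀.FG) (hF₀B : F₀ ≤ B) (b N : ℝ)
    (T : Finset (Polynomial Ω)) (hT : ∀ f ∈ T, f ∈ PI (clI v B)) :
    ∃ F : IntermediateField k Ω, F.FG ∧ F₀ ≤ F ∧ F ≤ B ∧ ∀ f ∈ T, ∃ f' ∈ PI F,
      GB v b N (f - f') := by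
  classical
  induction T using Finset.induction_on with
  | empty => exact ⟨F₀, hF₀, le_rfl, hF₀B, fun f hf => absurd hf (Finset.notMem_empty f)⟩
  | insert g T hg ih =>
    obtain ⟨F, hF, h1, h2, h3⟩ := ih fun f hf => hT f (Finset.mem_insert_of_mem hf)
    obtain ⟨F', hF', h4, g', hg', h5⟩ := exists_poly_near (hT g (Finset.mem_insert_self g T)) b N
    refine ⟨F ⊔ F', IntermediateField.fg_sup hF hF', h1.trans le_sup_left, sup_le h2 h4,
      fun f hf => ?_⟩
    rcases Finset.mem_insert.1 hf with rfl | hf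
    · exact ⟨g', PI_mono le_sup_right hg', h5⟩
    · obtain ⟨f', hf', h6⟩ := h3 f hf
      exact ⟨f', PI_mono le_sup_left hf', h6⟩

variable [IsAlgClosed Ω]

/-- A finitely generated subfield of `B` which generates together with `y`. -/
theorem exists_gen_sub [IsAlgClosed k] (p : ℕ) [hp : Fact p.Prime] [CharP k p] [CharP Ω p]
    {r : ℕ} (h : Ctx k v r) {K₀ : IntermediateField k Ω} (hK : K₀.FG) (hBDK : BD p v K₀)
    {B F₀ : IntermediateField k Ω} (hF₀ : F₀.FG) (hF₀B : F₀ ≤ B) {y : Ω} {s : ℝ}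
    (hy : TL v (clI v B) y s) (hcl : clI v K₀ = cadj v (clI v B) y) :
    ∃ F : IntermediateField k Ω, F.FG ∧ F₀ ≤ F ∧ F ≤ B ∧
      ∀ F' : IntermediateField k Ω, F ≤ F' → F' ≤ B → clI v (adj F' y) = clI v K₀ := by
  classical
  have hle : ∀ F' : IntermediateField k Ω, F' ≤ B → adj F' y ≤ clI v K₀ := by
    intro F' hF'
    rw [hcl]
    exact adj_le (hF'.trans ((le_clI B).trans (le_cadj v _ y))) (self_mem_cadj v _ y)
  let ι := {F : IntermediateField k Ω // F.FG ∧ F₀ ≤ F ∧ F ≤ B}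
  let L : ι → IntermediateField k Ω := fun F => adj F.1 y
  have hdir : Directed (· ≤ ·) L := by
    rintro ⟨F, hF, h1, h2⟩ ⟨F', hF', h3, h4⟩
    refine ⟨⟨F ⊔ F', IntermediateField.fg_sup hF hF', h1.trans le_sup_left, sup_le h2 h4⟩, ?_, ?_⟩
    · exact adj_le (le_sup_left.trans fun x hx => (mem_adj_self _ y).2 hx) (mem_adj_self _ y).1
    · exact adj_le (le_sup_right.trans fun x hx => (mem_adj_self _ y).2 hx) (mem_adj_self _ y).1
  have hne : Nonempty ι := ⟨⟨F₀, hF₀, le_rfl, hF₀B⟩⟩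
  obtain ⟨⟨F, hF, h1, h2⟩, hFcl⟩ := TWEX.exists_of_union (p := p) h.toCtx0 hK hBDK (L := L) hdir
    (fun F => hle F.1 F.2.2.2) (by
      intro x hx b
      have hx' : x ∈ cadj v (clI v B) y := by
        rw [← hcl]
        exact le_clI _ hx
      obtain ⟨f, hf, h1⟩ := hy.dense hx' b
      obtain ⟨F, hF, h2, h3, h4⟩ := exists_fg_near (v := v) hF₀ hF₀B (v y) b {f}
        (fun g hg => by rw [Finset.mem_singleton.1 hg]; exact hf)
      obtain ⟨f', hf', h5⟩ := h4 f (Finset.mem_singleton_self f)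
      refine ⟨⟨F, hF, h2, h3⟩, f'.eval y, TWJ.eval_mem_adj hf', ?_⟩
      have h6 := h5.eval (v.ge_self y)
      rw [eval_sub] at h6
      have h7 := h1.add h6
      rwa [sub_add_sub_cancel] at h7)
  refine ⟨F, hF, h1, h2, fun F' hF' hF'B => le_antisymm ?_ ?_⟩
  · have h3 := clI_mono (v := v) (hle F' hF'B)
    rwa [clI_clI] at h3
  · rw [← hFcl]
    exact clI_mono (adj_le (hF'.trans fun x hx => (mem_adj_self _ y).2 hx) (mem_adj_self _ y).1)

/-- **Frames in the closure of `B`.** -/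
theorem exists_sub_frame [IsAlgClosed k] (p : ℕ) [hp : Fact p.Prime] [CharP k p] [CharP Ω p]
    {r D : ℕ} (h : Ctx k v r) (hcv : CompleteV v)
    (hLU : ∀ E : IntermediateField k Ω, E.FG → Full v E → Algebra.trdeg k E = (r + D : ℕ) →
      BD p v E → LU p v r E)
    {K₀ : IntermediateField k Ω} (hK : K₀.FG)
    (htr : Algebra.trdeg k K₀ = (r + D + 1 : ℕ)) (hBDK : BD p v K₀)
    {B : IntermediateField k Ω} (hBf : Full v B) (hBt : Algebra.trdeg k B = (r + D : ℕ)) {y : Ω}
    {s : ℝ} (hy : TL v (clI v B) y s) (hcl : clI v K₀ = cadj v (clI v B) y) (b N : ℝ)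
    (T : Finset (Polynomial Ω)) (hT : ∀ f ∈ T, f ∈ PI (clI v B)) :
    ∃ S : Fr k v r D, S.K ≤ clI v B ∧ clI v (adj S.K y) = clI v K₀ ∧
      ∀ f ∈ T, ∃ f' ∈ PI S.K, GB v b N (f - f') := by
  classical
  obtain ⟨F₀, hF₀, hF₀B, hF₀'⟩ := exists_base_fg hBf hBt
  obtain ⟨F₁, hF₁, hF₀₁, hF₁B, hF₁'⟩ := exists_gen_sub p h hK hBDK hF₀ hF₀B hy hcl
  obtain ⟨F, hF, hF₁F, hFB, hFT⟩ := exists_fg_near (v := v) hF₁ hF₁B b N T hT
  obtain ⟨hFf, hFt⟩ := hF₀' F (hF₀₁.trans hF₁F) hFB
  have hFcl := hF₁' F hF₁F hFB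
  have hyF : Transcendental F y := fun h1 =>
    (TWJ.TL.transc hy) (D2P.isAlgebraic_mono (hFB.trans (le_clI B)) h1)
  obtain ⟨m, s₀, hsb, C₀, hC₀⟩ := id hBDK
  have hm : m = r + D + 1 := by
    have h4 := (hsb.trdeg p hK).1
    rw [htr] at h4
    exact_mod_cast h4.symm
  subst hm
  have hos : OI p v (clI v K₀) s₀ C₀ := (TWM.OI.of_orth_pb hC₀ hsb).cl
  have hpb : PBasis p (clI v K₀) s₀ := pbasis_clI hcv hsb hos
  have hBDc : BD p v (clI v K₀) := ⟨_, s₀, hpb, C₀, hos.orth⟩
  have hBDFy : BD p v (adj F y) := (TWJ.BD_dense hBDc hpb (D2P.fg_adj hF y) hFcl).2 (by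
    rw [TW.HRLU.trdeg_adj hyF, hFt]
    push_cast
    rfl)
  have hBDF : BD p v F := TW.BD.of_adj p hF hyF hBDFy
  obtain ⟨t₀, ht₀⟩ := TW.exists_pbasis p hF hFt
  obtain ⟨S, hS, -, -⟩ := hLU F hF hFf hFt hBDF D t₀ ht₀ ∅ (by simp)
  have hMF : clI v S.K = clI v F := by
    rw [← clI_hen F, Fr.IsFr.hen_eq p h hS, clI_hen]
  refine ⟨S, ?_, ?_, fun f hf => ?_⟩
  · have h1 : S.K ≤ clI v S.K := le_clI S.K
    rw [hMF] at h1
    exact h1.trans (clI_mono hFB)
  · rw [← hFcl, ← clI_adj_clI, hMF, clI_adj_clI]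
  · obtain ⟨f', hf', h1⟩ := hFT f hf
    have hf'' : f' ∈ PI (clI v S.K) := by
      rw [hMF]
      exact PI_mono (le_clI F) hf'
    obtain ⟨F', -, hF', f'', h2, h3⟩ := exists_poly_near hf'' b N
    refine ⟨f'', PI_mono hF' h2, ?_⟩
    have h4 := h1.add h3
    rwa [sub_add_sub_cancel] at h4

/-! ### Jets -/

omit [IsAlgClosed Ω] in
/-- A common bound. -/
theorem exists_common {Q : ℕ → ℝ → Prop}
    (hQ : ∀ l η η', 0 < η' → η' ≤ η → Q l η → Q l η') (S : Finset ℕ)
    (hS : ∀ l ∈ S, ∃ η : ℝ, 0 < η ∧ Q l η) : ∃ η : ℝ, 0 < η ∧ ∀ l ∈ S, Q l η := by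
  classical
  induction S using Finset.induction_on with
  | empty => exact ⟨1, one_pos, fun l hl => absurd hl (Finset.notMem_empty l)⟩
  | insert m S hm ih =>
    obtain ⟨η, hη, h1⟩ := ih fun l hl => hS l (Finset.mem_insert_of_mem hl)
    obtain ⟨η', hη', h2⟩ := hS m (Finset.mem_insert_self m S)
    refine ⟨min η η', lt_min hη hη', fun l hl => ?_⟩
    rcases Finset.mem_insert.1 hl with rfl | hl
    · exact hQ _ _ _ (lt_min hη hη') (min_le_right _ _) h2
    · exact hQ _ _ _ (lt_min hη hη') (min_le_left _ _) (h1 l hl)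

/-- The jets of a polynomial with small value. -/
theorem jets_gt {A : IntermediateField k Ω} {y : Ω} {s : ℝ} (hy : TL v A y s)
    {f : Polynomial Ω} (hf : f ∈ PI A) {c : ℝ} (hc : Gt v c (f.eval y)) (l : ℕ) :
    Gt v (c - l * s) ((taylor y f).coeff l) := by
  by_cases h0 : f = 0
  · rw [h0, map_zero, coeff_zero]
    exact Gt.zero
  · have hfA : f ∈ PI (algc A) := PI_mono (le_algc A) hf
    have h1 := hc (hy.eval_ne hfA h0)
    exact Gt.of_ge (hy.weak hfA h0 l) (by linarith)

/-- Small values near `y`. -/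
theorem near_gt {A : IntermediateField k Ω} {y : Ω} {s : ℝ} (hy : TL v A y s)
    {f : Polynomial Ω} (hf : f ∈ PI A) {c : ℝ} (hc : Gt v c (f.eval y)) :
    ∃ η : ℝ, 0 < η ∧ ∀ ψ, v.Ge (s - η) (y - ψ) → v.Ge (c + η) (f.eval ψ) := by
  by_cases h0 : f = 0
  · refine ⟨1, one_pos, fun ψ _ => ?_⟩
    rw [h0, eval_zero]
    exact RVal.Ge.zero
  · have hfA : f ∈ PI (algc A) := PI_mono (le_algc A) hf
    have h1 := hc (hy.eval_ne hfA h0)
    obtain ⟨δ, hδ, h2⟩ := hy.near_val hfA h0
    refine ⟨min δ (v (f.eval y) - c), lt_min hδ (by linarith), fun ψ hψ => ?_⟩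
    obtain ⟨-, h4⟩ := h2 ψ (hψ.mono (by
      have := min_le_left δ (v (f.eval y) - c)
      linarith))
    intro _
    rw [h4]
    have := min_le_right δ (v (f.eval y) - c)
    linarith

omit [IsAlgClosed Ω] in
/-- The binomial coefficient of the jets of a jet. -/
theorem choose_eq_one (p : ℕ) [hp : Fact p.Prime] [CharP Ω p] {j q : ℕ} (hj : j < p)
    (hq : p ∣ q) : (((j + q).choose j : ℕ) : Ω) = 1 := by
  obtain ⟨m, rfl⟩ := hq
  have h1 := Choose.choose_modEq_choose_mod_mul_choose_div_nat (n := j + p * m) (k := j) (p := p)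
  have e1 : (j + p * m) % p = j := by
    rw [Nat.add_mul_mod_self_left, Nat.mod_eq_of_lt hj]
  have e2 : (j + p * m) / p = m := by
    rw [Nat.add_mul_div_left _ _ hp.out.pos, Nat.div_eq_of_lt hj, zero_add]
  rw [e1, e2, Nat.mod_eq_of_lt hj, Nat.div_eq_of_lt hj, Nat.choose_self, Nat.choose_zero_right,
    mul_one] at h1
  have h2 := (CharP.natCast_eq_natCast' Ω p h1)
  rw [h2, Nat.cast_one]

/-- **The jets of order `≥ p`**, if those of order divisible by `p` are `p`-th powers. -/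
theorem exists_jets (p : ℕ) [hp : Fact p.Prime] [CharP Ω p] {A : IntermediateField k Ω} {y : Ω}
    {s : ℝ} (hy : TL v A y s) {P : Polynomial Ω} (hP : P ∈ PI A) {ν : ℝ}
    (hit : ∀ l : ℕ, p ∣ l → l ≠ 0 → ∃ w ∈ cadj v A y,
      Gt v (ν - l * s) ((taylor y P).coeff l - w ^ p)) :
    ∃ G : ℕ → Polynomial Ω, (∀ l, G l ∈ PI A) ∧ ∀ l, p ≤ l →
      Gt v (ν - l * s) ((hasseDeriv l P - if p ∣ l then G l ^ p else 0).eval y) := by
  classical
  have hp0 : (0 : ℝ) < p := by exact_mod_cast hp.out.pos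
  have h1 : ∀ l : ℕ, ∃ G ∈ PI A, p ∣ l → l ≠ 0 →
      Gt v (ν - l * s) ((hasseDeriv l P - G ^ p).eval y) := by
    intro l
    by_cases hl : p ∣ l ∧ l ≠ 0
    · obtain ⟨w, hw, h1⟩ := hit l hl.1 hl.2
      obtain ⟨G, hG, h2⟩ := hy.dense hw ((ν - l * s) / p + 1)
      refine ⟨G, hG, fun _ _ => ?_⟩
      have e : (hasseDeriv l P - G ^ p).eval y =
          ((taylor y P).coeff l - w ^ p) + (w - G.eval y) ^ p := by
        rw [eval_sub, eval_pow, taylor_coeff, sub_pow_char]
        ring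
      rw [e]
      refine h1.add fun h3 => ?_
      have h4 : w - G.eval y ≠ 0 := fun h5 => h3 (by rw [h5, zero_pow hp.out.ne_zero])
      rw [v.map_pow h4]
      have h5 := h2 h4
      have h6 : (p : ℝ) * ((ν - l * s) / p + 1) = ν - l * s + p := by
        field_simp
      nlinarith
    · exact ⟨0, zero_mem _, fun h2 h3 => absurd ⟨h2, h3⟩ hl⟩
  choose G hG hGl using h1
  refine ⟨G, hG, fun l hl => ?_⟩
  have hl0 : l ≠ 0 := by
    have := hp.out.pos
    omega
  by_cases hpl : p ∣ l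
  · rw [if_pos hpl]
    exact hGl l hpl hl0
  · rw [if_neg hpl, sub_zero]
    set j : ℕ := l % p with hj
    set q : ℕ := p * (l / p) with hq
    have hjq : j + q = l := Nat.mod_add_div l p
    have hj0 : ¬ p ∣ j := fun h2 => hpl (by rw [← hjq]; exact dvd_add h2 (dvd_mul_right p _))
    have hjp : j < p := Nat.mod_lt _ hp.out.pos
    have hq0 : q ≠ 0 := by omega
    have h2 := hGl q (dvd_mul_right p _) hq0
    have h3 := jets_gt hy (sub_mem (hasse_mem_PI hP q) (pow_mem (hG q) p)) h2 j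
    rw [map_sub, coeff_sub, TWJ.jet_jet, taylor_pow, TWJ.coeff_pow_char p, if_neg hj0, sub_zero,
      choose_eq_one p hjp (dvd_mul_right p _), one_mul, hjq] at h3
    rw [← taylor_coeff]
    refine h3.mono ?_
    rw [← hjq]
    push_cast
    linarith

/-! ### The exit -/

/-- The state near `y`. -/
theorem exists_sl_near [IsAlgClosed k] (p : ℕ) [hp : Fact p.Prime] [CharP k p] [CharP Ω p]
    {r D : ℕ} (h : Ctx k v r) (hcv : CompleteV v)
    (hLU : ∀ E : IntermediateField k Ω, E.FG → Full v E → Algebra.trdeg k E = (r + D : ℕ) →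
      BD p v E → LU p v r E)
    {K₀ : IntermediateField k Ω} (hK : K₀.FG)
    (htr : Algebra.trdeg k K₀ = (r + D + 1 : ℕ)) (hBDK : BD p v K₀)
    {B : IntermediateField k Ω} (hBf : Full v B) (hBt : Algebra.trdeg k B = (r + D : ℕ)) {y : Ω}
    {s : ℝ} (hy : TL v (clI v B) y s) (hcl : clI v K₀ = cadj v (clI v B) y) {ν N₁ : ℝ}
    {P : Polynomial Ω} (hP : P ∈ PI (clI v B)) {G : ℕ → Polynomial Ω}
    (hG : ∀ l, G l ∈ PI (clI v B))
    (hjet : ∀ l, p ≤ l → Gt v (ν - l * s) ((hasseDeriv l P - if p ∣ l then G l ^ p else 0).eval y))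
    {b : Ω} (hb : v.Ge (max N₁ (ν + 1)) (b - P.eval y))
    (hlev : ∀ g ∈ clI v K₀, ¬ Gt v ν (b - g ^ p)) :
    ∃ (S : Fr k v r D) (X : Ω) (ρ κ : ℝ) (A : Polynomial Ω), clI v (adj S.K X) = clI v K₀ ∧
      SL p v S.K X ρ κ (p - 1) A ∧ v.Ge N₁ (b - A.eval X) := by
  classical
  have hp0 : 0 < p := hp.out.pos
  have hp1 : (1 : ℝ) ≤ p := by exact_mod_cast hp.out.pos
  set N : ℕ := P.natDegree with hN
  have hRm : ∀ l, (hasseDeriv l P - if p ∣ l then G l ^ p else 0) ∈ PI (clI v B) := by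
    intro l
    refine sub_mem (hasse_mem_PI hP l) ?_
    split_ifs
    · exact pow_mem (hG l) p
    · exact zero_mem _
  -- the margin
  obtain ⟨η, hη, hηl⟩ := exists_common (Q := fun l η => p ≤ l → ∀ ψ, v.Ge (s - η) (y - ψ) →
      v.Ge (ν - l * s + η) ((hasseDeriv l P - if p ∣ l then G l ^ p else 0).eval ψ))
    (fun l η η' _ hle h1 hpl ψ hψ => (h1 hpl ψ (hψ.mono (by linarith))).mono (by linarith))
    (Finset.range (N + 1)) (fun l _ => by
      by_cases hpl : p ≤ l
      · obtain ⟨η, hη, h1⟩ := near_gt hy (hRm l) (hjet l hpl)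
        exact ⟨η, hη, fun _ => h1⟩
      · exact ⟨1, one_pos, fun h1 => absurd h1 hpl⟩)
  set η' : ℝ := η / (2 * (N + 1)) with hη'
  have hη'0 : 0 < η' := by positivity
  have hη'1 : η' ≤ η := by
    rw [hη', div_le_iff₀ (by positivity)]
    nlinarith [Nat.cast_nonneg (α := ℝ) N]
  have hη'N : ∀ l : ℕ, l ≤ N → (l : ℝ) * η' ≤ η / 2 := by
    intro l hl
    have h1 : (l : ℝ) ≤ N := by exact_mod_cast hl
    have h2 : (l : ℝ) * η' ≤ N * η' := mul_le_mul_of_nonneg_right h1 hη'0.le
    have h3 : (N : ℝ) * η' ≤ η / 2 := by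
      rw [hη', mul_div_assoc', div_le_div_iff₀ (by positivity) two_pos]
      nlinarith [Nat.cast_nonneg (α := ℝ) N]
    exact h2.trans h3
  set r' : ℝ := s - η' with hr'
  set r₀ : ℝ := min (v y) r' with hr₀
  set N₂ : ℝ := max (max N₁ (ν + 1)) (max |s| (|ν| + η + N * |r'|)) with hN₂
  have hN₂1 : N₁ ≤ N₂ := (le_max_left _ _).trans (le_max_left _ _)
  have hN₂2 : ν + 1 ≤ N₂ := (le_max_right _ _).trans (le_max_left _ _)
  have hN₂3 : |s| ≤ N₂ := (le_max_left _ _).trans (le_max_right _ _)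
  have hN₂4 : |ν| + η + N * |r'| ≤ N₂ := (le_max_right _ _).trans (le_max_right _ _)
  have hN₂0 : 0 ≤ N₂ := (abs_nonneg s).trans hN₂3
  obtain ⟨θ, hθ, hyθ⟩ := hy.lim (η' / 2) (by positivity)
  obtain ⟨S, hSB, hScl, hST⟩ := exists_sub_frame p h hcv hLU hK htr hBDK hBf hBt hy hcl r₀ N₂
    ({P} ∪ {C θ} ∪ (Finset.range (N + 1)).image G) (by
      intro f hf
      simp only [Finset.mem_union, Finset.mem_singleton, Finset.mem_image] at hf
      rcases hf with (rfl | rfl) | ⟨l, -, rfl⟩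
      · exact hP
      · exact C_mem_PI hθ
      · exact hG l)
  obtain ⟨P', hP', hPP'⟩ := hST P (by simp)
  obtain ⟨Θ, hΘ, hΘ'⟩ := hST (C θ) (by simp)
  have hGS : ∀ l : ℕ, ∃ G' ∈ PI S.K, l ≤ N → GB v r₀ N₂ (G l - G') := by
    intro l
    by_cases hl : l ≤ N
    · obtain ⟨G', hG', h1⟩ := hST (G l) (by
        refine Finset.mem_union_right _ (Finset.mem_image_of_mem _ ?_)
        rw [Finset.mem_range]
        omega)
      exact ⟨G', hG', fun _ => h1⟩
    · exact ⟨0, zero_mem _, fun h1 => absurd h1 hl⟩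
  choose G' hG' hGG' using hGS
  -- the centre
  set θ' : Ω := Θ.coeff 0 with hθ'
  have hθ'S : θ' ∈ S.K := hΘ 0
  have hθθ' : v.Ge N₂ (θ - θ') := by
    have h1 := hΘ' 0
    rwa [coeff_sub, coeff_C_zero, Nat.cast_zero, zero_mul, sub_zero] at h1
  have hyθ' : v.Ge (s - η' / 2) (y - θ') := by
    have h1 := hyθ.add (hθθ'.mono (show s - η' / 2 ≤ N₂ by
      have := le_abs_self s
      linarith))
    rwa [sub_add_sub_cancel] at h1
  have hXgt : Gt v r' (y - θ') := Gt.of_ge hyθ' (by rw [hr']; linarith)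
  have hθ'r₀ : v.Ge r₀ θ' := by
    have h1 := ((v.ge_self y).mono (min_le_left (v y) r')).sub
      (hXgt.ge.mono (min_le_right (v y) r'))
    rwa [sub_sub_cancel] at h1
  have hyr₀ : v.Ge r₀ y := (v.ge_self y).mono (min_le_left _ _)
  set A : Polynomial Ω := taylor θ' P' with hA
  have hAm : A ∈ PI S.K := TWM.taylor_mem_PI hP' hθ'S
  have hAe : A.eval (y - θ') = P'.eval y := by rw [hA, taylor_eval, sub_add_cancel]
  have hPy : v.Ge N₂ (P.eval y - P'.eval y) := by
    have h1 := hPP'.eval hyr₀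
    rwa [eval_sub] at h1
  have hbA : v.Ge (max N₁ (ν + 1)) (b - A.eval (y - θ')) := by
    rw [hAe]
    have h1 := hb.add (hPy.mono (show max N₁ (ν + 1) ≤ N₂ from le_max_left _ _))
    rwa [sub_add_sub_cancel] at h1
  have hadj : adj S.K (y - θ') = adj S.K y := by
    refine le_antisymm (adj_le (fun x hx => (mem_adj_self _ _).2 hx) ?_)
      (adj_le (fun x hx => (mem_adj_self _ _).2 hx) ?_)
    · exact sub_mem (mem_adj_self _ _).1 ((mem_adj_self _ _).2 hθ'S)
    · have h1 := add_mem (mem_adj_self S.K (y - θ')).1 ((mem_adj_self S.K (y - θ')).2 hθ'S)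
      rwa [sub_add_cancel] at h1
  have hcl' : clI v (adj S.K (y - θ')) = clI v K₀ := by rw [hadj, hScl]
  -- the coefficients of `A`
  have hAl : ∀ l : ℕ, A.coeff l = (taylor θ' P).coeff l - (taylor θ' (P - P')).coeff l := by
    intro l
    rw [hA, map_sub, coeff_sub, sub_sub_cancel]
  have hGBT : ∀ l : ℕ, v.Ge (ν + η / 2 - l * r') ((taylor θ' (P - P')).coeff l) := by
    intro l
    refine (hPP'.taylor hθ'r₀ l).mono ?_
    have h1 : (l : ℝ) * r₀ ≤ l * r' :=
      mul_le_mul_of_nonneg_left (min_le_right _ _) (Nat.cast_nonneg l)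
    have h2 := le_abs_self ν
    have h3 : (0 : ℝ) ≤ N * |r'| := by positivity
    linarith
  set W : ℕ → Ω := fun l => if l ≤ N then (G' l).eval θ' else 0 with hW
  have hWm : ∀ l, W l ∈ S.K := by
    intro l
    rw [hW]
    dsimp only
    split_ifs
    · exact TWM.eval_mem (hG' l) hθ'S
    · exact zero_mem _
  have hl : ∀ l : ℕ, p ≤ l →
      v.Ge (ν + η / 2 - l * r') (A.coeff l - if p ∣ l then W l ^ p else 0) := by
    intro l hpl
    rcases le_or_gt l N with hlN | hlN
    · have h1 := hηl l (Finset.mem_range.2 (by omega)) hpl θ' (hyθ'.mono (by linarith))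
      have h2 : v.Ge (ν + η / 2 - l * r')
          ((hasseDeriv l P - if p ∣ l then G l ^ p else 0).eval θ') := by
        refine h1.mono ?_
        have := hη'N l hlN
        rw [hr', mul_sub]
        linarith
      by_cases hd : p ∣ l
      · rw [if_pos hd] at h2 ⊢
        have hWl : W l = (G' l).eval θ' := by
          rw [hW]
          simp only [if_pos hlN]
        have h3 : v.Ge N₂ ((G l).eval θ' - (G' l).eval θ') := by
          have h4 := (hGG' l hlN).eval hθ'r₀
          rwa [eval_sub] at h4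
        have h4 : v.Ge (ν + η / 2 - l * r') ((G l).eval θ' ^ p - W l ^ p) := by
          rw [hWl, ← sub_pow_char]
          intro h5
          have h6 : (G l).eval θ' - (G' l).eval θ' ≠ 0 :=
            fun h7 => h5 (by rw [h7, zero_pow hp.out.ne_zero])
          rw [v.map_pow h6]
          have h7 := h3 h6
          have h8 : v ((G l).eval θ' - (G' l).eval θ') ≤
              p * v ((G l).eval θ' - (G' l).eval θ') := by
            nlinarith
          have h9 : -(N * |r'|) ≤ (l : ℝ) * r' := by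
            have h10 : (l : ℝ) * |r'| ≤ N * |r'| :=
              mul_le_mul_of_nonneg_right (by exact_mod_cast hlN) (abs_nonneg _)
            have h11 : -(l * |r'|) ≤ (l : ℝ) * r' := by
              have := neg_abs_le r'
              nlinarith [Nat.cast_nonneg (α := ℝ) l]
            linarith
          have h12 := le_abs_self ν
          linarith
        rw [hAl, taylor_coeff]
        rw [eval_sub, eval_pow] at h2
        have h5 := (h2.sub (hGBT l)).add h4
        have e : eval θ' (hasseDeriv l P) - eval θ' (G l) ^ p - (taylor θ' (P - P')).coeff l +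
            (eval θ' (G l) ^ p - W l ^ p) =
            eval θ' (hasseDeriv l P) - (taylor θ' (P - P')).coeff l - W l ^ p := by ring
        rwa [e] at h5
      · rw [if_neg hd, sub_zero] at h2 ⊢
        rw [hAl, taylor_coeff]
        exact h2.sub (hGBT l)
    · have hWl : W l = 0 := by
        rw [hW]
        simp only [if_neg (not_le.2 hlN)]
      have e1 : (taylor θ' P).coeff l = 0 :=
        coeff_eq_zero_of_natDegree_lt (by rw [natDegree_taylor]; exact hlN)
      rw [hAl, e1, zero_sub, hWl, zero_pow hp.out.ne_zero, ite_self, sub_zero]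
      exact (hGBT l).neg
  obtain ⟨κ, hSL⟩ := sl_of_pth p (ν := ν) hAm hXgt (half_pos hη) hWm hl (by
    intro c g hg hc
    by_contra hlt
    push Not at hlt
    have hgS : g.eval (y - θ') ∈ clI v K₀ := by
      rw [← hcl']
      exact le_clI _ (TWJ.eval_mem_adj hg)
    refine hlev _ hgS ?_
    have h1 := hc.eval hXgt.ge
    rw [eval_sub, eval_pow] at h1
    have h2 := (Gt.of_ge (hbA.mono (le_max_right N₁ (ν + 1))) (show ν < ν + 1 by linarith)).add
      (Gt.of_ge h1 hlt)
    rwa [sub_add_sub_cancel] at h2)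
  exact ⟨S, y - θ', r', κ, A, hcl', hSL, hbA.mono (le_max_left _ _)⟩

/-- **No hit => `HRone`**, over a base which is not finitely generated. -/
theorem nohit_union [IsAlgClosed k] (p : ℕ) [hp : Fact p.Prime] [CharP k p] [CharP Ω p]
    {r D : ℕ} (h : Ctx k v r) (hcv : CompleteV v) (h2 : 2 ≤ r + D)
    (hLU : ∀ E : IntermediateField k Ω, E.FG → Full v E → Algebra.trdeg k E = (r + D : ℕ) →
      BD p v E → LU p v r E)
    {K₀ : IntermediateField k Ω} (hK : K₀.FG) (hKf : Full v K₀)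
    (htr : Algebra.trdeg k K₀ = (r + D + 1 : ℕ)) (hBDK : BD p v K₀) {al : Ω}
    (hal : al ^ p ∈ K₀) (hBD : BD p v (adj K₀ al)) {B : IntermediateField k Ω}
    (hBf : Full v B) (hBt : Algebra.trdeg k B = (r + D : ℕ)) {y : Ω} {s : ℝ}
    (hy : TL v (clI v B) y s) (hcl : clI v K₀ = cadj v (clI v B) y) {ν : ℝ}
    {f : Polynomial Ω} (hf : f ∈ PI (clI v B)) {g : Ω} (hg : g ∈ clI v K₀)
    (hw : Gt v ν (al ^ p - g ^ p - f.eval y))
    (hit : ∀ l : ℕ, p ∣ l → l ≠ 0 → ∃ w ∈ clI v K₀,
      Gt v (ν - l * s) ((taylor y f).coeff l - w ^ p))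
    (hlev : ∀ g ∈ clI v K₀, ¬ Gt v ν (al ^ p - g ^ p)) : HRone v (adj K₀ al) := by
  classical
  have hp0 : 0 < p := hp.out.pos
  have halK : al ^ p ∈ clI v K₀ := le_clI _ hal
  have hlev' : ∀ g' ∈ clI v K₀, ¬ Gt v ν (al ^ p - g ^ p - g' ^ p) := by
    intro g' hg' h1
    refine hlev (g + g') (add_mem hg hg') ?_
    rwa [add_pow_char, ← sub_sub]
  have hμ : ∀ g' ∈ clI v K₀, ¬ v.Ge (ν + 1) (al ^ p - g' ^ p) := by
    intro g' hg' h1
    exact hlev g' hg' (Gt.of_ge h1 (by linarith))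
  -- coordinates
  obtain ⟨S₀, -, hS₀, -⟩ := exists_sub_frame p h hcv hLU hK htr hBDK hBf hBt hy hcl 0 0 ∅
    (by simp)
  have ht₀ : clI v (kr k (Fin.snoc S₀.s y : Fin (r + D + 1) → Ω)) = clI v K₀ := by
    rw [← hS₀, TW.P1.K_eq, adj_range]
  obtain ⟨N₁, hN₁⟩ := TWJ2.stt_of_near p h hcv hK htr hBDK rfl ht₀ halK hμ (h₁ := 1) (g₁ := g)
    (one_mem _) one_ne_zero hg
  -- a nearer polynomial
  have hw' : al ^ p - g ^ p ∈ cadj v (clI v B) y := by
    rw [← hcl]
    exact sub_mem halK (pow_mem hg p)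
  obtain ⟨P, hP, hPw⟩ := hy.dense hw' (max N₁ (ν + 1))
  have hPgt : Gt v ν (al ^ p - g ^ p - P.eval y) :=
    Gt.of_ge (hPw.mono (le_max_right _ _)) (by linarith)
  have hPf : Gt v ν ((f - P).eval y) := by
    rw [eval_sub, show f.eval y - P.eval y =
      (al ^ p - g ^ p - P.eval y) - (al ^ p - g ^ p - f.eval y) by ring]
    exact hPgt.sub hw
  obtain ⟨G, hG, hjet⟩ := exists_jets p hy hP (ν := ν) (by
    intro l hpl hl
    obtain ⟨w, hw, h1⟩ := hit l hpl hl
    refine ⟨w, by rw [← hcl]; exact hw, ?_⟩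
    have h3 := jets_gt hy (sub_mem hf hP) hPf l
    rw [map_sub, coeff_sub] at h3
    have h4 := h1.sub h3
    rwa [show (taylor y f).coeff l - w ^ p - ((taylor y f).coeff l - (taylor y P).coeff l) =
      (taylor y P).coeff l - w ^ p by ring] at h4)
  obtain ⟨S, X, ρ, κ, A, hScl, hSL, hA⟩ := exists_sl_near p h hcv hLU hK htr hBDK hBf hBt hy hcl
    hP hG hjet hPw hlev'
  obtain ⟨R', X', A', hst, -, -, -⟩ := hN₁ S X hScl (p - 1) ρ κ A hSL (by
    rw [one_pow, mul_one]
    exact hA)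
  have hd : Dns v R'.K := TW.dns_of_BD p h hst.fg hst.full hst.bd hst.tr h2
  exact TWJ.exit_small p h hcv hLU (TWJ.exitZero_h p h hLU) (TWJ.exitTame p h hLU) hK hKf htr hal
    hBD hst hd (by omega)

end Pool.Agent.TWS7
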