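import Pool.Agent.Lib.TWS7.Exit
import Pool.Agent.Lib.TWMF.E2

/-!
# TANK W, leaf (II): evaluation of the arc by motions

`evC`: an arc with finitely many jets over the completion is evaluated by motions of `K₀`.
-/

set_option autoImplicit false

open Polynomial

namespace Pool.Agent.TWS7

open Pool.Agent.H15JM (RVal)
open Pool.Agent.LU1 (VPos adj)
open Pool.Agent.D2 (Ctx0)
open Pool.Agent.D2P (hen clI mem_clI mem_adj_self)
open Pool.Agent.TWM
open Pool.Agent.TWLM (Arc Oi)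
open Pool.Agent.TWEX (KArc0)
open Pool.Agent.TW (Ctx Full BD HRone LU Mot kr)

universe u'

variable {k Ω : Type u'} [Field k] [Field Ω] [Algebra k Ω] {v : RVal Ω}

/-- **Evaluation at the exact tower.** -/
theorem evC [IsAlgClosed k] [IsAlgClosed Ω] (p : ℕ) [Fact p.Prime] [CharP k p] [CharP Ω p]
    {r : ℕ} (h : Ctx k v r) {K₀ : IntermediateField k Ω} (hK : K₀.FG)
    (hΩ : ∀ g : Ω, IsAlgebraic K₀ g) (htr : Algebra.trdeg k K₀ = (4 : ℕ)) (hBDK : BD p v K₀)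
    {Ω' : Type u'} [Field Ω'] [Algebra k Ω'] [IsAlgClosed Ω'] {w : RVal Ω'} {ι : Ω →ₐ[k] Ω'}
    (hcw : CompleteV w) (hd : Dense v w ι) {x y u z : Ω'} {σ ρ s : ℝ} {D Ψ : ℕ → Ω' → Ω'}
    (hx : x ≠ 0) (hwx : w x ≠ 0)
    (hS : STow p w (cadj w (⊥ : IntermediateField k Ω') x) y σ D u ρ z s (clI w (K₀.map ι)))
    (hA : KArc0 p w (adj (⊥ : IntermediateField k Ω') x) (cadj w (⊥ : IntermediateField k Ω') x) y
      σ D (clI w (K₀.map ι)) u z ρ s Ψ) : TWMF.EV p v w ι K₀ Ψ σ := by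
  have : CharP Ω' p := Dense.charP ι p
  have hN₀ := TWEX.adj_bot (k := k) x
  have hcl : clI w (K₀.map ι) = clI w (kr k (![x, y, u, z] : Fin 4 → Ω')) := by
    rw [← TWEX.cl_tower]
    exact hS.eq
  have h0' : Ctx0 k w := hd.ctx0 h.toCtx0
  obtain ⟨-, -, -, -, hind, -⟩ := TWEX.exists_pull h.toCtx0 hcw hd hK htr hBDK hcl 0
  obtain ⟨H, hH, hX⟩ := TWEX.exists_xd_pow hA h0' hcw hS.cN hN₀ hx hwx hind
  exact TWMF.ev_of_xd h hcw hd hK hΩ htr hBDK hcl hX hA.arc.toHSd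
    (TWMF.ptw_of_arc hA.arc) hA.oi hH

end Pool.Agent.TWS7
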