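import Pool.Agent.Lib.TWS7.Unhit
import Pool.Agent.Lib.TWM.Bridge
import Pool.Agent.Lib.TWW.Defs

/-!
# TANK W, leaf (II), row S7.5: the final form, transfer to the completion

`alt_of`: `K₀` of transcendence degree `4`, `g ^ p ∈ K₀`; if over the closure of `K₀` in a complete
field `g ^ p` is not hit by the top floor of some presentation, or if `K₀` has motions with a small
effect on `g ^ p`, then `adj K₀ g` is `HRone`, or `K₀` has motions with a small effect.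
-/

set_option autoImplicit false

open Polynomial

namespace Pool.Agent.TWS7

open Pool.Agent.H15JM (RVal)
open Pool.Agent.LU1 (VPos adj)
open Pool.Agent.LUC (Cl)
open Pool.Agent.D2 (Ctx0)
open Pool.Agent.D2P (hen clI mem_clI mem_adj_self)
open Pool.Agent.TWM
open Pool.Agent.TWII (PG LP)
open Pool.Agent.TW (Ctx Full BD HRone LU Mot)

universe u'

variable {k Ω Ω' : Type u'} [Field k] [Field Ω] [Algebra k Ω] [Field Ω'] [Algebra k Ω']
  {v : RVal Ω} {w : RVal Ω'} {ι : Ω →ₐ[k] Ω'}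

/-- Motions of `K₀` with an effect on `a` in `K₀ ^ p + O(≥ ν + κ)`. -/
def MotE (p : ℕ) (v : RVal Ω) (K₀ : IntermediateField k Ω) (ν : ℝ) (a : Ω) : Prop :=
  ∃ (φ : ℕ → (Ω ≃ₐ[k] Ω)) (δ : ℕ → Ω) (μ κ : ℝ), 0 < κ ∧ Mot v K₀ φ δ μ ∧
    ∀ i, ∃ b ∈ hen v K₀, v.Ge (ν + κ) (φ i a - a - b ^ p)

theorem gt_iff (h : Dense v w ι) {c : ℝ} {x : Ω} : Gt w c (ι x) ↔ Gt v c x := by
  constructor
  · intro h1 h0
    have h2 := h1 (h.ne_zero h0)
    rwa [h.val x h0] at h2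
  · intro h1 h0
    have h2 : x ≠ 0 := fun h3 => h0 (by rw [h3, map_zero])
    rw [h.val x h2]
    exact h1 h2

/-- The level of `g ^ p`. -/
theorem level_of_map (h : Dense v w ι) {p : ℕ} [Fact p.Prime] [CharP Ω' p]
    {K₀ : IntermediateField k Ω} {ν : ℝ} {a : Ω} (hlim : LP p w (clI w (K₀.map ι)) ν (ι a))
    (hlev : ∀ x ∈ clI w (K₀.map ι), ¬ Gt w ν (ι a - x ^ p)) :
    (∀ ε : ℝ, 0 < ε → ∃ b ∈ hen v K₀, v.Ge (ν - ε) (a - b ^ p)) ∧
      ∀ b ∈ clI v K₀, ¬ Gt v ν (a - b ^ p) := by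
  have hp : p.Prime := Fact.out
  refine ⟨fun ε hε => ?_, fun b hb h1 => ?_⟩
  · obtain ⟨θ, hθ, h1⟩ := hlim ε hε
    obtain ⟨_, ⟨b, hb, rfl⟩, h2⟩ := mem_clI.1 hθ ((ν - ε) / p)
    refine ⟨b, D2P.le_hen K₀ hb, ?_⟩
    rw [← h.ge_iff, map_sub, map_pow]
    have e : ι a - ι b ^ p = (ι a - θ ^ p) + (θ - ι b) ^ p := by
      rw [sub_pow_char]
      ring
    rw [e]
    refine h1.add ((ge_pow h2 p).mono ?_)
    have h3 : (p : ℝ) ≠ 0 := by exact_mod_cast hp.ne_zero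
    rw [mul_div_cancel₀ _ h3]
  · refine hlev (ι b) ?_ ?_
    · rw [mem_clI]
      exact h.cl_iff.2 (mem_clI.1 hb)
    · rw [← map_pow, ← map_sub]
      exact (gt_iff h).2 h1

/-- **The final form**, up to the absorption. -/
theorem alt_of [IsAlgClosed k] [IsAlgClosed Ω] [IsAlgClosed Ω'] (p : ℕ) [Fact p.Prime]
    [CharP k p] [CharP Ω p] (h : Ctx k v 1) (hcw : CompleteV w) (hd : Dense v w ι)
    {K₀ : IntermediateField k Ω} (hK : K₀.FG) (hfull : Full v K₀)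
    (htr : Algebra.trdeg k K₀ = (4 : ℕ)) (hBDK : BD p v K₀) {g : Ω} (hg : g ∉ K₀)
    (hgp : g ^ p ∈ K₀) (hBD : BD p v (adj K₀ g))
    (hdich : ∀ ν : ℝ, LP p w (clI w (K₀.map ι)) ν (ι (g ^ p)) →
      (∀ x ∈ clI w (K₀.map ι), ¬ Gt w ν (ι (g ^ p) - x ^ p)) →
      Unhit p w 3 (clI w (K₀.map ι)) ν (ι (g ^ p)) ∨ MotE p v K₀ ν (g ^ p)) :
    HRone v (adj K₀ g) ∨ ∃ ν : ℝ, MotE p v K₀ ν (g ^ p) ∧
      (∀ ε : ℝ, 0 < ε → ∃ b ∈ hen v K₀, v.Ge (ν - ε) (g ^ p - b ^ p)) ∧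
      ∀ b ∈ clI v K₀, ¬ Gt v ν (g ^ p - b ^ p) := by
  have : CharP Ω' p := Dense.charP ι p
  have hBDK' : BD p w (K₀.map ι) := (Dense.bd_iff hd).2 hBDK
  have hg' : ι g ∉ K₀.map ι := fun h1 => hg (Dense.apply_mem_map.1 h1)
  have hgp' : ι g ^ p ∈ K₀.map ι := by
    rw [← map_pow]
    exact Dense.apply_mem_map.2 hgp
  obtain ⟨ν, h1, h2⟩ := exists_level p hBDK' hg' hgp'
  rw [← map_pow] at h1 h2
  rcases hdich ν h1 h2 with h3 | h3
  · left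
    rw [← Dense.hrone_iff hd, Dense.adj_map]
    refine hrone_of_unhit p (Dense.ctx hd h) hcw (Dense.fg_map hK) ((Dense.full_iff hd).2 hfull)
      (by rw [Dense.trdeg_map]; exact htr) hBDK' hgp' ?_ (ν := ν) (by rwa [map_pow] at h3)
      (by rwa [map_pow] at h2)
    rw [← Dense.adj_map]
    exact (Dense.bd_iff hd).2 hBD
  · exact Or.inr ⟨ν, h3, level_of_map hd h1 h2⟩

end Pool.Agent.TWS7
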